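import Mathlib

set_option autoImplicit false

/-!
# Joint Poisson laws from joint factorial moments: statement of the job
-/

namespace Pool.Agent.Y862.JL

open Finset

/-- the joint Poisson law from the joint factorial moments, in total variation -/
def S_JLAW : Prop := ∀ (k : ℕ) (x0 ε : ℝ), 0 ≤ x0 → 0 < ε → ∃ (R : ℕ) (η : ℝ), 0 < η ∧
  ∀ (Om : Finset ℕ) (N : Fin k → ℕ → ℕ) (x : Fin k → ℝ), (∀ i, 0 ≤ x i ∧ x i ≤ x0) →
  (∀ r : Fin k → ℕ, (∀ i, r i < R) →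
    |∑ n ∈ Om, ∏ i, ((N i n).choose (r i) : ℝ) - Om.card * ∏ i, (x i ^ r i / (r i).factorial)| ≤
      η * Om.card) →
  ∀ A : Finset (Fin k → ℕ), |((Om.filter (fun n => (fun i => N i n) ∈ A)).card : ℝ) -
    Om.card * ∑ a ∈ A, ∏ i, (Real.exp (-x i) * x i ^ a i / (a i).factorial)| ≤ ε * Om.card

end Pool.Agent.Y862.JL
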